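import Mathlib

set_option autoImplicit false

namespace Pool.Agent.Results.MP_2b0b8a_al.Ten

/-- the index set of the generators: pairs `1 ≤ p < q ≤ n` -/
def Gen (n : ℕ) : Type := {x : ℕ × ℕ // 1 ≤ x.1 ∧ x.1 < x.2 ∧ x.2 ≤ n}

/-- the three families of defining relators -/
def rels (n : ℕ) : Set (FreeGroup (Gen n)) :=
  {w | (∃ a : Gen n, w = FreeGroup.of a * FreeGroup.of a) ∨
    (∃ a b : Gen n, Disjoint (Set.Icc a.1.1 a.1.2) (Set.Icc b.1.1 b.1.2) ∧
      w = FreeGroup.of a * FreeGroup.of b * (FreeGroup.of b * FreeGroup.of a)⁻¹) ∨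
    (∃ a b c : Gen n, Set.Icc b.1.1 b.1.2 ⊆ Set.Icc a.1.1 a.1.2 ∧
      c.1 = (a.1.1 + a.1.2 - b.1.2, a.1.1 + a.1.2 - b.1.1) ∧
      w = FreeGroup.of a * FreeGroup.of b * (FreeGroup.of c * FreeGroup.of a)⁻¹)}

/-- the cactus group -/
abbrev J (n : ℕ) : Type := PresentedGroup (rels n)

/-- the semidirect product of `A ^ r` with the group of order two reversing the coordinates -/
@[ext] structure Wr (A : Type) (r : ℕ) where
  v : Fin r → A
  e : Bool

instance wrGroup (A : Type) [Group A] (r : ℕ) : Group (Wr A r) where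
  mul x y := ⟨fun i => x.v i * y.v (if x.e then i.rev else i), xor x.e y.e⟩
  one := ⟨fun _ => 1, false⟩
  inv x := ⟨fun i => (x.v (if x.e then i.rev else i))⁻¹, x.e⟩
  mul_assoc := by
    rintro ⟨a, d⟩ ⟨b, e⟩ ⟨c, f⟩
    refine Wr.ext (funext fun i => ?_) (Bool.xor_assoc d e f)
    change a i * b (if d then i.rev else i) * c (if xor d e then i.rev else i) =
      a i * (b (if d then i.rev else i) *
        c (if e then (if d then i.rev else i).rev else (if d then i.rev else i)))
    cases d <;> cases e <;> simp [mul_assoc]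
  one_mul := by
    rintro ⟨a, d⟩
    exact Wr.ext (funext fun i => one_mul _) (Bool.false_xor d)
  mul_one := by
    rintro ⟨a, d⟩
    exact Wr.ext (funext fun i => mul_one _) (Bool.xor_false d)
  inv_mul_cancel := by
    rintro ⟨a, d⟩
    exact Wr.ext (funext fun i => inv_mul_cancel _) (Bool.xor_self d)

/-- the iterated products; the head of the list is the operation applied last -/
def W : List ℕ → GrpCat.{0}
  | [] => GrpCat.of (Multiplicative (ZMod 2))
  | r :: l => GrpCat.of (Wr (W l) r)

def Embeds (G H : Type) [Group G] [Group H] : Prop := ∃ f : G →* H, Function.Injective f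

def wrEquiv (A : Type) (r : ℕ) : Wr A r ≃ (Fin r → A) × Bool :=
  ⟨fun x => (x.v, x.e), fun x => ⟨x.1, x.2⟩, fun _ => rfl, fun _ => rfl⟩

lemma cardW0 : Nat.card (W []) = 2 := by
  change Nat.card (Multiplicative (ZMod 2)) = 2
  simp

lemma cardW (r : ℕ) (l : List ℕ) : Nat.card (W (r :: l)) = Nat.card (W l) ^ r * 2 := by
  change Nat.card (Wr (W l) r) = _
  rw [Nat.card_congr (wrEquiv _ _), Nat.card_prod, Nat.card_fun]
  simp

lemma cardW_le (l : List ℕ) (h : ∀ r ∈ l, 2 ≤ r) (hp : 2 * l.prod ≤ 10) :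
    0 < Nat.card (W l) ∧ Nat.card (W l) ≤ 128 := by
  rcases l with _ | ⟨a, _ | ⟨b, _ | ⟨c, l⟩⟩⟩
  · simp [cardW0]
  · rw [cardW, cardW0]
    simp at hp h
    have : a ≤ 5 := by omega
    interval_cases a <;> norm_num
  · rw [cardW, cardW, cardW0]
    simp at hp h
    have ha : a = 2 := by nlinarith [h.1, h.2]
    have hb : b = 2 := by nlinarith [h.1, h.2]
    subst ha hb
    norm_num
  · exfalso
    have h1 : 1 ≤ l.prod := List.one_le_prod_of_one_le fun x hx => by
      have := h x (by simp [hx]); omega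
    have ha := h a (by simp)
    have hb := h b (by simp)
    have hc := h c (by simp)
    simp only [List.prod_cons] at hp
    have h2 : 2 ≤ c * l.prod := by nlinarith
    have h3 : 4 ≤ b * (c * l.prod) := by nlinarith
    nlinarith

lemma fin_step {G : Type} [Group G] (S : Set G) (t : G)
    (hf : (Subgroup.closure S : Set G).Finite) (ht : t * t = 1)
    (hc : ∀ s ∈ S, t * s * t ∈ Subgroup.closure S) :
    (Subgroup.closure (insert t S) : Set G).Finite := by
  have hi : t⁻¹ = t := inv_eq_of_mul_eq_one_right ht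
  have tt : ∀ x, t * (t * x) = x := fun x => by rw [← mul_assoc, ht, one_mul]
  have cj : ∀ h ∈ Subgroup.closure S, t * h * t ∈ Subgroup.closure S := by
    intro h hh
    induction hh using Subgroup.closure_induction with
    | mem x hx => exact hc x hx
    | one => simp [ht]
    | mul x y _ _ hx hy => simpa [mul_assoc, tt] using mul_mem hx hy
    | inv x _ hx => simpa [mul_assoc, hi] using inv_mem hx
  have key : ∀ x ∈ Subgroup.closure (insert t S),
      x ∈ Subgroup.closure S ∨ x * t ∈ Subgroup.closure S := by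
    intro x hx
    induction hx using Subgroup.closure_induction with
    | mem x hx =>
      rcases hx with rfl | hx
      · right; simp [ht]
      · exact Or.inl (Subgroup.subset_closure hx)
    | one => exact Or.inl (one_mem _)
    | mul x y _ _ hx hy =>
      rcases hx with hx | hx <;> rcases hy with hy | hy
      · exact Or.inl (mul_mem hx hy)
      · right; simpa [mul_assoc] using mul_mem hx hy
      · right; simpa [mul_assoc, tt] using mul_mem hx (cj _ hy)
      · left; simpa [mul_assoc, tt, ht] using mul_mem hx (cj _ hy)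
    | inv x _ hx =>
      rcases hx with hx | hx
      · exact Or.inl (inv_mem hx)
      · right; simpa [mul_assoc, tt, hi] using cj _ (inv_mem hx)
  refine (hf.union (hf.image (· * t))).subset fun x hx => ?_
  rcases key x hx with h | h
  · exact Or.inl h
  · exact Or.inr ⟨_, h, by simp [mul_assoc, ht]⟩

def s (a : Gen 10) : J 10 := PresentedGroup.of a

lemma rel_one {w : FreeGroup (Gen 10)} (h : w ∈ rels 10) : PresentedGroup.mk (rels 10) w = 1 :=
  PresentedGroup.one_of_mem h

lemma ssq (a : Gen 10) : s a * s a = 1 := by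
  have := rel_one (Or.inl ⟨a, rfl⟩)
  simp only [map_mul] at this
  exact this

def Rel (a b c : Gen 10) : Prop :=
  (a.1.1 ≤ b.1.1 ∧ b.1.2 ≤ a.1.2 ∧ c.1 = (a.1.1 + a.1.2 - b.1.2, a.1.1 + a.1.2 - b.1.1)) ∨
    (b.1.2 < a.1.1 ∧ c.1 = b.1)

instance (a b c : Gen 10) : Decidable (Rel a b c) := by unfold Rel; infer_instance

lemma rel_conj (a b c : Gen 10) (h : Rel a b c) : s a * s b * s a = s c := by
  have h2 : s a * s b = s c * s a := by
    rcases h with h1 | ⟨h1, h3⟩
    · have := rel_one (Or.inr (Or.inr ⟨a, b, c, Set.Icc_subset_Icc h1.1 h1.2.1, h1.2.2, rfl⟩))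
      simp only [map_mul, map_inv, mul_inv_eq_one] at this
      exact this
    · obtain rfl : c = b := Subtype.ext h3
      have := rel_one (Or.inr (Or.inl ⟨a, c, Set.disjoint_left.2 fun x hx hy => by
        have := hx.1; have := hy.2; omega, rfl⟩))
      simp only [map_mul, map_inv, mul_inv_eq_one] at this
      exact this
  rw [h2, mul_assoc, ssq, mul_one]

def good : List (Gen 10) → Bool
  | [] => true
  | a :: l => good l && l.all fun b => l.any fun c => decide (Rel a b c)

def sub (l : List (Gen 10)) : Subgroup (J 10) := Subgroup.closure {x | x ∈ l.map s}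

lemma fin_sub (l : List (Gen 10)) (h : good l = true) : (sub l : Set (J 10)).Finite := by
  induction l with
  | nil => simp [sub]
  | cons a l ih =>
    simp only [good, Bool.and_eq_true, List.all_eq_true, List.any_eq_true,
      decide_eq_true_eq] at h
    have e : {x | x ∈ (a :: l).map s} = insert (s a) {x | x ∈ l.map s} := by
      ext x; simp
    unfold sub
    rw [e]
    refine fin_step _ _ (ih h.1) (ssq a) fun x hx => ?_
    obtain ⟨b, hb, rfl⟩ := List.mem_map.1 hx
    obtain ⟨c, hc, hr⟩ := h.2 b hb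
    rw [rel_conj a b c hr]
    exact Subgroup.subset_closure (List.mem_map.2 ⟨c, hc, rfl⟩)

def gens : List (Gen 10) :=
  [⟨(9, 10), by decide⟩, ⟨(1, 8), by decide⟩, ⟨(5, 8), by decide⟩, ⟨(7, 8), by decide⟩,
    ⟨(5, 6), by decide⟩, ⟨(1, 4), by decide⟩, ⟨(3, 4), by decide⟩, ⟨(1, 2), by decide⟩]

lemma good_gens : good gens = true := by decide +kernel

def rev (p q x : ℕ) : ℕ := if p ≤ x ∧ x ≤ q then p + q - x else x

lemma rev_inv (p q : ℕ) : Function.Involutive (rev p q) := fun x => by
  simp only [rev]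
  split_ifs <;> omega

def phi0 (a : Gen 10) : Equiv.Perm ℕ := (rev_inv a.1.1 a.1.2).toPerm

lemma phi0_apply (a : Gen 10) (x : ℕ) : phi0 a x = rev a.1.1 a.1.2 x := rfl

lemma rel_ok : ∀ w ∈ rels 10, FreeGroup.lift phi0 w = 1 := by
  rintro w (⟨a, rfl⟩ | ⟨⟨⟨p, q⟩, a1, a2, a3⟩, ⟨⟨m, r⟩, b1, b2, b3⟩, hd, rfl⟩ |
    ⟨⟨⟨p, q⟩, a1, a2, a3⟩, ⟨⟨m, r⟩, b1, b2, b3⟩, ⟨c, hc⟩, hs, hc', rfl⟩)
  · simp only [map_mul, FreeGroup.lift_apply_of]
    exact Equiv.ext fun x => rev_inv _ _ x
  · simp only [map_mul, map_inv, FreeGroup.lift_apply_of, mul_inv_eq_one]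
    simp only at a1 a2 a3 b1 b2 b3 hd
    have hd' : q < m ∨ r < p := by
      by_contra hh
      have h5 : max p m ∈ Set.Icc p q := ⟨by omega, by omega⟩
      exact Set.disjoint_left.1 hd h5 ⟨by omega, by omega⟩
    refine Equiv.ext fun u => ?_
    simp only [Equiv.Perm.mul_apply, phi0_apply, rev]
    split_ifs <;> omega
  · simp only [map_mul, map_inv, FreeGroup.lift_apply_of, mul_inv_eq_one]
    simp only at a1 a2 a3 b1 b2 b3 hs hc'
    subst hc'
    obtain ⟨h3, -⟩ := hs (a := m) ⟨le_rfl, b2.le⟩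
    obtain ⟨-, h4⟩ := hs (a := r) ⟨b2.le, le_rfl⟩
    refine Equiv.ext fun u => ?_
    simp only [Equiv.Perm.mul_apply, phi0_apply, rev]
    split_ifs <;> omega

def phi : J 10 →* Equiv.Perm ℕ := PresentedGroup.toGroup rel_ok

def ev (w : List (Gen 10)) : J 10 := (w.map s).prod

def run : List (Gen 10) → ℕ → ℕ
  | [], x => x
  | a :: w, x => rev a.1.1 a.1.2 (run w x)

lemma phi_ev (w : List (Gen 10)) (x : ℕ) : phi (ev w) x = run w x := by
  induction w with
  | nil => simp [ev, run]
  | cons a w ih =>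
    have : ev (a :: w) = s a * ev w := by simp [ev]
    rw [this, map_mul, Equiv.Perm.mul_apply, ih, run]
    simp only [phi, s, PresentedGroup.toGroup.of, phi0_apply]

def code (f : ℕ → ℕ) : ℕ := f 1 + 16 * (f 3 + 16 * (f 5 + 16 * (f 7 + 16 * f 9)))

lemma nd : (gens.sublists'.map fun w => code (run w)).Nodup := by decide +kernel

lemma nd2 : (gens.sublists'.map ev).Nodup := by
  refine List.Nodup.of_map (fun g => code (phi g)) ?_
  have : (fun g : J 10 => code (phi g)) ∘ ev = fun w => code (run w) :=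
    funext fun w => congrArg code (funext (phi_ev w))
  rw [List.map_map, this]
  exact nd

lemma big : 256 ≤ Nat.card (sub gens) := by
  classical
  have h1 : ((gens.sublists'.map ev).toFinset : Set (J 10)) ⊆ sub gens := by
    intro x hx
    simp only [List.coe_toFinset, Set.mem_setOf_eq] at hx
    obtain ⟨w, hw, rfl⟩ := List.mem_map.1 hx
    refine Subgroup.list_prod_mem _ fun y hy => Subgroup.subset_closure ?_
    exact ((List.mem_sublists'.1 hw).map s).subset hy
  have h2 := Set.ncard_le_ncard h1 (fin_sub gens good_gens)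
  rw [Set.ncard_coe_finset, List.toFinset_card_of_nodup nd2, List.length_map,
    List.length_sublists'] at h2
  exact h2

theorem result : ∃ n : ℕ, 2 ≤ n ∧ ∃ (G : Type) (_ : Group G), Finite G ∧ Embeds G (J n) ∧
    ∀ l : List ℕ, (∀ r ∈ l, 2 ≤ r) → 2 * l.prod ≤ n → ¬ Embeds G (W l) := by
  refine ⟨10, by norm_num, sub gens, inferInstance, fin_sub gens good_gens,
    ⟨(sub gens).subtype, Subtype.val_injective⟩, fun l h hp ⟨f, hf⟩ => ?_⟩
  obtain ⟨h0, h1⟩ := cardW_le l h hp
  haveI : Finite (W l) := Nat.finite_of_card_ne_zero h0.ne'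
  have h2 := Nat.card_le_card_of_injective f hf
  have := big
  omega

end Pool.Agent.Results.MP_2b0b8a_al.Ten
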